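import Pool.Agent.Helper92.CB.RareK2

/-!
# CB, degree 3, piece COFSUM: sum over rough ideals whose norm is in a fixed class modulo `2 ^ J`
-/

set_option autoImplicit false

namespace Pool.Agent.Helper57.CB

open NumberField Ideal Finset

variable {K : Type} [Field K] [NumberField K]

theorem absNorm_pos' {b : Ideal (𝓞 K)} (hb : b ≠ ⊥) : 0 < absNorm b := by
  rw [Nat.pos_iff_ne_zero, Ne, absNorm_eq_zero_iff]
  exact hb

open Classical in
/-- peel off one prime from every ideal -/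
theorem peel (A : Finset (Ideal (𝓞 K))) (p q : Ideal (𝓞 K) → Ideal (𝓞 K))
    (hpq : ∀ b ∈ A, b = p b * q b) (e : ℝ)
    (h : ∀ c ∈ A.image q, ∑ P ∈ (A.filter (fun b => q b = c)).image p, (1 : ℝ) / absNorm P ≤ e) :
    ∑ b ∈ A, (1 : ℝ) / absNorm b ≤ e * ∑ c ∈ A.image q, (1 : ℝ) / absNorm c := by
  rw [← Finset.sum_fiberwise_of_maps_to (fun b hb => Finset.mem_image_of_mem q hb), Finset.mul_sum]
  refine Finset.sum_le_sum fun c hc => ?_
  have h1 : ∑ b ∈ A.filter (fun b => q b = c), (1 : ℝ) / absNorm b =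
      ∑ b ∈ A.filter (fun b => q b = c), (1 : ℝ) / absNorm (p b) * (1 / absNorm c) := by
    refine Finset.sum_congr rfl fun b hb => ?_
    rw [Finset.mem_filter] at hb
    have h2 : absNorm b = absNorm (p b) * absNorm c := by
      conv_lhs => rw [hpq b hb.1, map_mul, hb.2]
    rw [h2]
    push_cast
    rw [one_div_mul_one_div]
  rw [h1, ← Finset.sum_mul]
  refine mul_le_mul_of_nonneg_right ?_ (by positivity)
  refine le_trans (le_of_eq ?_) (h c hc)
  rw [Finset.sum_image]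
  intro b hb b' hb' hbb
  rw [Finset.coe_filter, Set.mem_ofPred_eq] at hb hb'
  rw [hpq b hb.1, hpq b' hb'.1, hb.2, hb'.2, hbb]

/-- the choice of the prime -/
theorem exists_peel (b : Ideal (𝓞 K)) : ∃ P c : Ideal (𝓞 K), b ≠ ⊤ → b = P * c ∧ P.IsPrime ∧
    b ≤ P := by
  by_cases hb : b = ⊤
  · exact ⟨⊤, ⊤, fun h => absurd hb h⟩
  · obtain ⟨P, hP, hle⟩ := Ideal.exists_le_maximal b hb
    obtain ⟨c, hc⟩ := Ideal.dvd_iff_le.2 hle
    exact ⟨P, c, fun _ => ⟨hc, hP.isPrime, hle⟩⟩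

open Classical in
/-- the sum over all rough ideals of bounded norm -/
theorem tot {z k : ℕ} {s : ℝ} (hs : 0 ≤ s) (hz : 0 < z)
    (h : ∀ S : Finset (Ideal (𝓞 K)), (∀ P ∈ S, P.IsPrime ∧ P ≠ ⊥ ∧ z < absNorm P ∧
      absNorm P ≤ z ^ k) → ∑ P ∈ S, (1 : ℝ) / absNorm P ≤ s) :
    ∀ j : ℕ, j ≤ k → ∀ A : Finset (Ideal (𝓞 K)), (∀ b ∈ A, b ≠ ⊥ ∧ absNorm b ≤ z ^ j ∧
      ∀ P : Ideal (𝓞 K), P.IsPrime → b ≤ P → z < absNorm P) →
      ∑ b ∈ A, (1 : ℝ) / absNorm b ≤ (1 + s) ^ j := by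
  intro j
  induction j with
  | zero =>
    intro _ A hA
    have h1 : A ⊆ {⊤} := by
      intro b hb
      obtain ⟨h1, h2, -⟩ := hA b hb
      rw [Finset.mem_singleton, ← absNorm_eq_one_iff]
      have := absNorm_pos' h1
      rw [pow_zero] at h2
      omega
    calc ∑ b ∈ A, (1 : ℝ) / absNorm b ≤ ∑ b ∈ {(⊤ : Ideal (𝓞 K))}, (1 : ℝ) / absNorm b :=
          Finset.sum_le_sum_of_subset_of_nonneg h1 (fun _ _ _ => by positivity)
      _ = 1 := by simp
      _ = _ := by rw [pow_zero]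
  | succ j ih =>
    intro hjk A hA
    choose p c hpc using exists_peel (K := K)
    have h0 : ∑ b ∈ A, (1 : ℝ) / absNorm b ≤
        1 + ∑ b ∈ A.filter (fun b => b ≠ ⊤), (1 : ℝ) / absNorm b := by
      rw [← Finset.sum_filter_add_sum_filter_not A (fun b => b = ⊤)]
      refine add_le_add ?_ le_rfl
      calc ∑ b ∈ A.filter (fun b => b = ⊤), (1 : ℝ) / absNorm b
          ≤ ∑ b ∈ {(⊤ : Ideal (𝓞 K))}, (1 : ℝ) / absNorm b :=
            Finset.sum_le_sum_of_subset_of_nonneg (fun b hb => by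
              rw [Finset.mem_filter] at hb
              rw [Finset.mem_singleton]
              exact hb.2) (fun _ _ _ => by positivity)
        _ = 1 := by simp
    have hkey : ∀ b ∈ A, b ≠ ⊤ → absNorm (c b) ≤ z ^ j ∧ c b ≠ ⊥ ∧ p b ≠ ⊥ ∧
        z < absNorm (p b) ∧ absNorm (p b) ≤ z ^ k ∧ b ≤ c b := by
      intro b hb hbt
      obtain ⟨g1, g2, g3⟩ := hA b hb
      obtain ⟨e1, e2, e3⟩ := hpc b hbt
      have hc0 : c b ≠ ⊥ := by
        intro h0
        apply g1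
        rw [e1, h0, Ideal.mul_bot]
      have hp0 : p b ≠ ⊥ := by
        intro h0
        apply g1
        rw [e1, h0, Ideal.bot_mul]
      have hmul : absNorm b = absNorm (p b) * absNorm (c b) := by
        conv_lhs => rw [e1, map_mul]
      have hzp := g3 _ e2 e3
      have hc1 := absNorm_pos' hc0
      refine ⟨?_, hc0, hp0, hzp, ?_, ?_⟩
      · by_contra hcon
        push Not at hcon
        have : z ^ (j + 1) < absNorm b := by
          rw [hmul, pow_succ, mul_comm]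
          exact Nat.mul_lt_mul'' hzp hcon
        omega
      · calc absNorm (p b) ≤ absNorm (p b) * absNorm (c b) := Nat.le_mul_of_pos_right _ hc1
          _ = absNorm b := hmul.symm
          _ ≤ z ^ (j + 1) := g2
          _ ≤ z ^ k := Nat.pow_le_pow_right hz hjk
      · exact e1.le.trans (Ideal.mul_le_right (I := p b) (J := c b))
    have h1 := peel (A.filter (fun b => b ≠ ⊤)) p c (fun b hb => by
      rw [Finset.mem_filter] at hb
      exact (hpc b hb.2).1) s (fun d _ => h _ (fun P hP => by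
        rw [Finset.mem_image] at hP
        obtain ⟨b, hb, rfl⟩ := hP
        rw [Finset.mem_filter, Finset.mem_filter] at hb
        obtain ⟨a1, a2, a3, a4, a5, a6⟩ := hkey b hb.1.1 hb.1.2
        exact ⟨(hpc b hb.1.2).2.1, a3, a4, a5⟩))
    have h2 := ih (by omega) ((A.filter (fun b => b ≠ ⊤)).image c) (fun d hd => by
      rw [Finset.mem_image] at hd
      obtain ⟨b, hb, rfl⟩ := hd
      rw [Finset.mem_filter] at hb
      obtain ⟨a1, a2, a3, a4, a5, a6⟩ := hkey b hb.1 hb.2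
      exact ⟨a2, a1, fun P hP hle => (hA b hb.1).2.2 P hP (a6.trans hle)⟩)
    calc ∑ b ∈ A, (1 : ℝ) / absNorm b
        ≤ 1 + ∑ b ∈ A.filter (fun b => b ≠ ⊤), (1 : ℝ) / absNorm b := h0
      _ ≤ 1 + s * (1 + s) ^ j := by
          have := mul_le_mul_of_nonneg_left h2 hs
          linarith
      _ ≤ (1 + s) ^ (j + 1) := by
          have : (1 : ℝ) ≤ (1 + s) ^ j := one_le_pow₀ (by linarith)
          rw [pow_succ]
          nlinarith

open Classical in
theorem cof_sum (K : Type) [Field K] [NumberField K] (k : ℕ) {ε : ℝ} (hε : 0 < ε) :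
    ∃ J0 : ℕ, ∀ J : ℕ, J0 ≤ J → ∃ Z0 : ℕ, ∀ z : ℕ, Z0 ≤ z → ∀ a : ZMod (2 ^ J), IsUnit a →
      ∀ A : Finset (Ideal (𝓞 K)),
      (∀ b ∈ A, b ≠ ⊥ ∧ b ≠ ⊤ ∧ ((absNorm b : ℕ) : ZMod (2 ^ J)) = a ∧ absNorm b ≤ z ^ k ∧
        ∀ P : Ideal (𝓞 K), P.IsPrime → b ≤ P → z < absNorm P) →
      ∑ b ∈ A, (1 : ℝ) / absNorm b ≤ ε := by
  set k' : ℕ := k + 1 with hk'
  set L : ℝ := 1 + 2 * Real.log k' with hL
  have hL0 : 0 ≤ L := by
    have : 0 ≤ Real.log (k' : ℝ) := Real.log_natCast_nonneg _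
    linarith
  set n : ℝ := (Module.finrank ℚ K : ℝ) with hn
  have hn0 : 0 ≤ n := by positivity
  set s : ℝ := 9 * n * L with hs
  have hs0 : 0 ≤ s := by positivity
  obtain ⟨J0, hJ0⟩ := exists_nat_gt (s * (1 + s) ^ k' / ε)
  refine ⟨J0 + 2, fun J hJ => ?_⟩
  obtain ⟨w1, hw1, h1⟩ := Pool.Agent.Helper92.CB.invK_class_le K 1
  have : NeZero (2 ^ J) := ⟨by positivity⟩
  obtain ⟨w2, hw2, h2⟩ := Pool.Agent.Helper92.CB.invK_class_le K (2 ^ J)
  refine ⟨⌈w1⌉₊ + ⌈w2⌉₊ + 1, fun z hz a ha A hA => ?_⟩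
  have hz1 : w1 ≤ z := (Nat.le_ceil w1).trans (by exact_mod_cast (by omega : ⌈w1⌉₊ ≤ z))
  have hz2 : w2 ≤ z := (Nat.le_ceil w2).trans (by exact_mod_cast (by omega : ⌈w2⌉₊ ≤ z))
  have hz0 : 0 < z := by omega
  have hze : Real.exp 1 ≤ (z : ℝ) := hw1.trans hz1
  have hlz : 1 ≤ Real.log z := by
    rw [Real.le_log_iff_exp_le (by exact_mod_cast hz0)]
    exact hze
  have hzk : (z : ℝ) ≤ (z : ℝ) ^ k' := by
    have h1z : (1 : ℝ) ≤ z := by exact_mod_cast hz0
    exact le_self_pow₀ h1z (by omega)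
  have hlog : 1 + 2 * Real.log (Real.log ((z : ℝ) ^ k') / Real.log z) = L := by
    rw [Real.log_pow, mul_div_assoc, div_self (by linarith), mul_one]
  have hT : ∀ S : Finset (Ideal (𝓞 K)), (∀ P ∈ S, P.IsPrime ∧ P ≠ ⊥ ∧ z < absNorm P ∧
      absNorm P ≤ z ^ k') → ∑ P ∈ S, (1 : ℝ) / absNorm P ≤ s := by
    intro S hS
    have := h1 1 isUnit_one z ((z : ℝ) ^ k') hz1 hzk S (fun P hP => by
      obtain ⟨a1, a2, a3, a4⟩ := hS P hP
      exact ⟨a1, a2, Subsingleton.elim _ _, by exact_mod_cast a3, by exact_mod_cast a4⟩)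
    rw [hlog] at this
    simpa [hs] using this
  set e : ℝ := 9 * n / ((2 ^ J).totient : ℕ) * L with he
  have htot : (((2 ^ J).totient : ℕ) : ℝ) = 2 ^ (J - 1) := by
    rw [Nat.totient_prime_pow Nat.prime_two (by omega)]
    push_cast
    ring
  have hC : ∀ a' : ZMod (2 ^ J), IsUnit a' → ∀ S : Finset (Ideal (𝓞 K)),
      (∀ P ∈ S, P.IsPrime ∧ P ≠ ⊥ ∧ ((absNorm P : ℕ) : ZMod (2 ^ J)) = a' ∧ z < absNorm P ∧
      absNorm P ≤ z ^ k') → ∑ P ∈ S, (1 : ℝ) / absNorm P ≤ e := by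
    intro a' ha' S hS
    have := h2 a' ha' z ((z : ℝ) ^ k') hz2 hzk S (fun P hP => by
      obtain ⟨a1, a2, a3, a4, a5⟩ := hS P hP
      exact ⟨a1, a2, a3, by exact_mod_cast a4, by exact_mod_cast a5⟩)
    rw [hlog] at this
    exact this
  have he0 : 0 ≤ e := by
    rw [he]
    positivity
  choose p c hpc using exists_peel (K := K)
  have hkey : ∀ b ∈ A, absNorm (c b) ≤ z ^ k' ∧ c b ≠ ⊥ ∧ p b ≠ ⊥ ∧
      z < absNorm (p b) ∧ absNorm (p b) ≤ z ^ k' ∧ b ≤ c b ∧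
      absNorm b = absNorm (p b) * absNorm (c b) := by
    intro b hb
    obtain ⟨g1, hbt, g4, g2, g3⟩ := hA b hb
    obtain ⟨e1, e2, e3⟩ := hpc b hbt
    have hc0 : c b ≠ ⊥ := by
      intro h0
      apply g1
      rw [e1, h0, Ideal.mul_bot]
    have hp0 : p b ≠ ⊥ := by
      intro h0
      apply g1
      rw [e1, h0, Ideal.bot_mul]
    have hmul : absNorm b = absNorm (p b) * absNorm (c b) := by
      conv_lhs => rw [e1, map_mul]
    have hle : absNorm b ≤ z ^ k' := g2.trans (Nat.pow_le_pow_right hz0 (by omega))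
    refine ⟨?_, hc0, hp0, g3 _ e2 e3, ?_, ?_, hmul⟩
    · exact (Nat.le_mul_of_pos_left _ (absNorm_pos' hp0)).trans (hmul ▸ hle)
    · exact (Nat.le_mul_of_pos_right _ (absNorm_pos' hc0)).trans (hmul ▸ hle)
    · exact e1.le.trans (Ideal.mul_le_right (I := p b) (J := c b))
  have h3 := peel A p c (fun b hb => (hpc b (hA b hb).2.1).1) e (fun d hd => by
    rw [Finset.mem_image] at hd
    obtain ⟨b0, hb0, rfl⟩ := hd
    have hu : IsUnit ((absNorm (c b0) : ℕ) : ZMod (2 ^ J)) ∧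
        IsUnit ((absNorm (p b0) : ℕ) : ZMod (2 ^ J)) := by
      have hab := (hA b0 hb0).2.2.1
      rw [(hkey b0 hb0).2.2.2.2.2.2, Nat.cast_mul] at hab
      rw [← hab] at ha
      exact ⟨isUnit_of_mul_isUnit_right ha, isUnit_of_mul_isUnit_left ha⟩
    refine hC ((absNorm (p b0) : ℕ) : ZMod (2 ^ J)) hu.2 _ (fun P hP => ?_)
    rw [Finset.mem_image] at hP
    obtain ⟨b, hb, rfl⟩ := hP
    rw [Finset.mem_filter] at hb
    obtain ⟨a1, a2, a3, a4, a5, a6, a7⟩ := hkey b hb.1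
    refine ⟨(hpc b (hA b hb.1).2.1).2.1, a3, ?_, a4, a5⟩
    have hab := (hA b0 hb0).2.2.1
    have hab' := (hA b hb.1).2.2.1
    rw [(hkey b0 hb0).2.2.2.2.2.2, Nat.cast_mul] at hab
    rw [a7, Nat.cast_mul, hb.2] at hab'
    exact hu.1.mul_right_cancel (hab'.trans hab.symm))
  have h4 := tot hs0 hz0 hT k' le_rfl (A.image c) (fun d hd => by
    rw [Finset.mem_image] at hd
    obtain ⟨b, hb, rfl⟩ := hd
    obtain ⟨a1, a2, a3, a4, a5, a6, a7⟩ := hkey b hb
    exact ⟨a2, a1, fun P hP hle => (hA b hb).2.2.2.2 P hP (a6.trans hle)⟩)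
  refine h3.trans ((mul_le_mul_of_nonneg_left h4 he0).trans ?_)
  have h5 : e = s / 2 ^ (J - 1) := by
    rw [he, htot, hs]
    ring
  rw [h5, div_mul_eq_mul_div, div_le_iff₀ (by positivity)]
  have h6 : (J0 : ℝ) ≤ 2 ^ (J - 1) := by
    have : J0 ≤ 2 ^ (J - 1) := by
      have := Nat.lt_two_pow_self (n := J - 1)
      omega
    exact_mod_cast this
  rw [div_lt_iff₀ hε] at hJ0
  nlinarith

end Pool.Agent.Helper57.CB
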